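import Pool.Agent.H.MP_a5725d_an.E

set_option autoImplicit false
namespace Pool.Agent.Results.MP_a5725d_an.Char
open MeasureTheory Metric Filter Topology Set ContinuousLinearMap

/-- The Hardy space, as square summable Taylor coefficient sequences. -/
noncomputable abbrev H2 := lp (fun _ : ℕ => ℂ) 2

/-- The value at `z` of the function with Taylor coefficients `a`. -/
noncomputable def ev (a : H2) (z : ℂ) : ℂ := ∑' k, a k * z ^ k

section
variable (V : Type) [NormedAddCommGroup V] [InnerProductSpace ℂ V] [CompleteSpace V]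
  (e : V → ℂ → ℂ) (φ : ℂ → ℂ)

/-- `M` is multiplication by `z` and `C` is composition with `φ`. -/
def Ops (M C : V →L[ℂ] V) : Prop := ∀ a : V, ∀ z ∈ ball (0 : ℂ) 1,
  e (M a) z = z * e a z ∧ e (C a) z = e a (φ z)

/-- The `n`-th term of the Toeplitz sequence of `T`. -/
noncomputable def tz (M T : V →L[ℂ] V) (n : ℕ) : V →L[ℂ] V := adjoint M ^ n * T * M ^ n

/-- Strongly asymptotically Toeplitz. -/
def SAT (M T : V →L[ℂ] V) : Prop :=
  ∃ A : V →L[ℂ] V, ∀ a, Tendsto (fun n => tz V M T n a) atTop (𝓝 (A a))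

/-- The two operators exist, and `C` is strongly asymptotically Toeplitz exactly when `P` holds. -/
def SatIff (P : Prop) : Prop :=
  (∃ M C, Ops V e φ M C) ∧ ∀ M C, Ops V e φ M C → (SAT V M C ↔ P)
end

/-- The modulus of `φ` on the radius ending at `exp (2 π i t)`. -/
noncomputable def rad (φ : ℂ → ℂ) (t : UnitAddCircle) (r : ℝ) : ℝ := ‖φ (r * fourier 1 t)‖

theorem result (φ : ℂ → ℂ) (hd : DifferentiableOn ℂ φ (ball 0 1))
    (hm : MapsTo φ (ball 0 1) (ball 0 1)) :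
    SatIff H2 ev φ (EqOn φ id (ball 0 1) ∨ ∀ᵐ t : UnitAddCircle,
      Tendsto (rad φ t) (𝓝[<] 1) (𝓝 1) →
        ∃ d < (1 : ℝ), Tendsto (fun r : ℝ => (1 - rad φ t r) / (1 - r)) (𝓝[<] 1) (𝓝 d)) := by
  have h1 : ∀ z : ℂ, ‖z‖ < 1 → ‖φ z‖ < 1 := fun z hz =>
    mem_ball_zero_iff.1 (hm (mem_ball_zero_iff.2 hz))
  obtain ⟨M, hM⟩ := H.MP_a5725d_an.exM
  obtain ⟨C, hC⟩ := H.MP_a5725d_an.exC hd h1
  refine ⟨⟨M, C, fun a z hz => ⟨hM a z (mem_ball_zero_iff.1 hz), hC a z (mem_ball_zero_iff.1 hz)⟩⟩,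
    fun M C h => (H.MP_a5725d_an.main hd h1 (fun a z hz => (h a z (mem_ball_zero_iff.2 hz)).1)
      fun a z hz => (h a z (mem_ball_zero_iff.2 hz)).2).trans (or_congr
        ⟨fun h z hz => h z (mem_ball_zero_iff.1 hz), fun h z hz => h (mem_ball_zero_iff.2 hz)⟩ ?_)⟩
  rw [H.MP_a5725d_an.hv]
  rfl

end Pool.Agent.Results.MP_a5725d_an.Char
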